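import Pool.Agent.H98.ABCR.Stmts

/-! # ABCR, module KNA: greedy knapsack -/

set_option autoImplicit false

namespace Pool.Agent.H98.ABCR

open Finset Polynomial

private theorem kna_aux (μ g : ℕ → ℝ) (G : ℝ) (hG : 0 ≤ G) : ∀ (n : ℕ) (s : Finset ℕ), s.card = n →
    (∀ i ∈ s, 0 ≤ μ i) → (∀ i ∈ s, 0 < g i) → (∀ i ∈ s, g i ≤ G) →
    ∀ t c : ℝ, 0 ≤ t → 0 ≤ c → t ≤ ∑ i ∈ s, μ i → ∑ i ∈ s, g i ≤ c * ∑ i ∈ s, μ i →
    ∃ K ⊆ s, t ≤ ∑ i ∈ K, μ i ∧ ∑ i ∈ K, g i ≤ c * t + G := by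
  intro n
  induction n with
  | zero =>
    intro s hs _ _ _ t c ht hc h1 _
    rw [Finset.card_eq_zero] at hs
    subst hs
    refine ⟨∅, Finset.Subset.refl _, h1, ?_⟩
    rw [Finset.sum_empty]
    positivity
  | succ n ih =>
    intro s hs hμ hg hgG t c ht hc h1 h2
    by_cases h0 : ∑ i ∈ s, μ i ≤ 0
    · refine ⟨∅, Finset.empty_subset _, ?_, ?_⟩
      · rw [Finset.sum_empty]
        linarith
      · rw [Finset.sum_empty]
        positivity
    push Not at h0
    have hne : s.Nonempty := by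
      rw [← Finset.card_pos]; omega
    obtain ⟨i, hi, hmin⟩ := Finset.exists_min_image s (fun i => μ i / g i) hne
    have hmin' : ∀ j ∈ s, μ i * g j ≤ μ j * g i := by
      intro j hj
      have := hmin j hj
      rwa [div_le_div_iff₀ (hg i hi) (hg j hj)] at this
    have hsum : μ i * ∑ j ∈ s, g j ≤ (∑ j ∈ s, μ j) * g i := by
      rw [Finset.mul_sum, Finset.sum_mul]
      exact Finset.sum_le_sum hmin'
    have e1 : ∑ j ∈ s.erase i, μ j = ∑ j ∈ s, μ j - μ i := by
      rw [← Finset.sum_erase_add _ _ hi]; ring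
    have e2 : ∑ j ∈ s.erase i, g j = ∑ j ∈ s, g j - g i := by
      rw [← Finset.sum_erase_add _ _ hi]; ring
    have hμi := hμ i hi
    have h3 : ∑ j ∈ s.erase i, g j ≤ c * ∑ j ∈ s.erase i, μ j := by
      rw [e1, e2]
      -- with c0 = g(s) / μ(s)
      set A := ∑ j ∈ s, μ j with hA
      set Bs := ∑ j ∈ s, g j with hBs
      have hc0 : Bs / A ≤ c := by
        rw [div_le_iff₀ h0]
        exact h2
      have h4 : μ i * (Bs / A) ≤ g i := by
        rw [← mul_div_assoc, div_le_iff₀ h0]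
        linarith
      have h5 : Bs = Bs / A * A := by
        field_simp
      have h6 : μ i ≤ A := by
        rw [hA]
        exact Finset.single_le_sum hμ hi
      calc Bs - g i ≤ Bs - μ i * (Bs / A) := by linarith
        _ = (Bs / A) * (A - μ i) := by
          rw [mul_sub, ← h5]; ring
        _ ≤ c * (A - μ i) := mul_le_mul_of_nonneg_right hc0 (by linarith)
    have hsub : s.erase i ⊆ s := Finset.erase_subset _ _
    by_cases h4 : t ≤ ∑ j ∈ s.erase i, μ j
    · obtain ⟨K, hK, hK2, hK3⟩ := ih (s.erase i) (by rw [Finset.card_erase_of_mem hi]; omega)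
        (fun j hj => hμ j (hsub hj)) (fun j hj => hg j (hsub hj)) (fun j hj => hgG j (hsub hj))
        t c ht hc h4 h3
      exact ⟨K, hK.trans hsub, hK2, hK3⟩
    · push Not at h4
      refine ⟨s, Finset.Subset.refl _, h1, ?_⟩
      have h5 := hgG i hi
      have h6 : c * ∑ j ∈ s.erase i, μ j ≤ c * t := mul_le_mul_of_nonneg_left h4.le hc
      linarith

theorem kna_thm : S_KNA := by
  intro s μ g δ G hμ hg hδ hδ1 hG hgG
  have hA : 0 ≤ ∑ i ∈ s, μ i := Finset.sum_nonneg hμ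
  have hB : 0 ≤ ∑ i ∈ s, g i := Finset.sum_nonneg fun i hi => (hg i hi).le
  rcases hA.lt_or_eq with h0 | h0
  · obtain ⟨K, hK, h1, h2⟩ := kna_aux μ g G hG s.card s rfl hμ hg hgG (δ * ∑ i ∈ s, μ i)
      ((∑ i ∈ s, g i) / ∑ i ∈ s, μ i) (by positivity) (by positivity)
      (by nlinarith) (by rw [div_mul_cancel₀ _ h0.ne'])
    refine ⟨K, hK, h1, h2.trans (le_of_eq ?_)⟩
    field_simp
  · refine ⟨∅, Finset.empty_subset _, ?_, ?_⟩
    · rw [← h0]; simp
    · rw [Finset.sum_empty]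
      positivity

end Pool.Agent.H98.ABCR
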