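import Pool.Agent.H98.ABCR.Stmts

/-! # ABCR, module CNT: counting triples with a heavy set of primes -/

set_option autoImplicit false

namespace Pool.Agent.H98.ABCR

open Finset Polynomial

private theorem cnt_rad_dvd {a m : ℕ} (ha : a ≠ 0) (hm : m ≠ 0) (h : rad a ∣ m) :
    a.primeFactors ⊆ m.primeFactors := by
  intro p hp
  rw [Nat.mem_primeFactors]
  refine ⟨Nat.prime_of_mem_primeFactors hp, ?_, hm⟩
  exact (Finset.dvd_prod_of_mem (fun p => p) hp).trans h

private theorem cnt_rad_pos (a : ℕ) : 0 < rad a :=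
  Finset.prod_pos fun p hp => (Nat.prime_of_mem_primeFactors hp).pos

private theorem cnt_coord_pos {v : ℕ × ℕ} (hv : IsTri v) (s : Fin 3) : coord v s ≠ 0 := by
  obtain ⟨h1, h2, -⟩ := hv
  fin_cases s <;> simp [coord] <;> omega

theorem cnt_thm (h_TRE : S_TRE) (h_RAD : S_RAD) : S_CNT := by
  intro δ hδ hδ1
  obtain ⟨C0, hC0, hT⟩ := h_TRE δ hδ hδ1
  set K0 : ℕ := ⌈C0⌉₊ with hK0
  have hCK : C0 ≤ K0 := Nat.le_ceil _
  have hK1 : 1 ≤ K0 := by
    rw [hK0, Nat.one_le_ceil_iff]; linarith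
  have hK1' : (1 : ℝ) ≤ K0 := by exact_mod_cast hK1
  refine ⟨3 * K0, by linarith, ?_⟩
  intro B F hB hF
  classical
  let P : Fin 3 → ℕ → ℕ × ℕ → Prop := fun t m v => ∃ K ⊆ (coord v t).primeFactors,
    Real.log (coord v t) - ∑ q ∈ K, ((coord v t).factorization q : ℝ) * Real.log q ≤
      (1 - δ) * Real.log ((v.1 : ℝ) + v.2) ∧
    (∏ s ∈ univ.erase t, rad (coord v s)) * ∏ q ∈ K, q = m
  have hsub : F ⊆ (univ : Finset (Fin 3)).biUnion fun t => (Icc 1 ⌊B⌋₊).biUnion fun m =>
      F.filter (P t m) := by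
    intro v hv
    obtain ⟨hv1, t, K, hK, h1, h2⟩ := hF v hv
    rw [Finset.mem_biUnion]
    refine ⟨t, Finset.mem_univ _, ?_⟩
    rw [Finset.mem_biUnion]
    refine ⟨(∏ s ∈ univ.erase t, rad (coord v s)) * ∏ q ∈ K, q, ?_, ?_⟩
    · rw [Finset.mem_Icc]
      refine ⟨?_, Nat.le_floor h2⟩
      refine Nat.mul_pos (Finset.prod_pos fun s _ => cnt_rad_pos _) (Finset.prod_pos fun q hq => ?_)
      exact (Nat.prime_of_mem_primeFactors (hK hq)).pos
    · rw [Finset.mem_filter]
      exact ⟨hv, K, hK, h1, rfl⟩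
  have hcell : ∀ t : Fin 3, ∀ m ∈ Icc 1 ⌊B⌋₊, ((F.filter (P t m)).card : ℝ) ≤
      K0 * (K0 : ℝ) ^ om m := by
    intro t m hm
    have hm0 : m ≠ 0 := by
      have := (Finset.mem_Icc.1 hm).1; omega
    have h3 := hT m.primeFactors (F.filter (P t m)) t
      (fun q hq => Nat.prime_of_mem_primeFactors hq) (by
        intro v hv
        rw [Finset.mem_filter] at hv
        obtain ⟨hvF, K, hK, h1, h2⟩ := hv
        have hv1 := (hF v hvF).1
        refine ⟨hv1, ?_, ?_⟩
        · intro s hs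
          refine cnt_rad_dvd (cnt_coord_pos hv1 s) hm0 ?_
          rw [← h2]
          exact (Finset.dvd_prod_of_mem (fun s => rad (coord v s))
            (Finset.mem_erase.2 ⟨hs, Finset.mem_univ _⟩)).mul_right _
        · have hKm : K ⊆ m.primeFactors := by
            intro q hq
            rw [Nat.mem_primeFactors]
            refine ⟨Nat.prime_of_mem_primeFactors (hK hq), ?_, hm0⟩
            rw [← h2]
            exact (Finset.dvd_prod_of_mem (fun q => q) hq).mul_left _
          have h4 : ∑ q ∈ K, ((coord v t).factorization q : ℝ) * Real.log q ≤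
              ∑ q ∈ m.primeFactors, ((coord v t).factorization q : ℝ) * Real.log q := by
            refine Finset.sum_le_sum_of_subset_of_nonneg hKm fun q hq _ => ?_
            have : (1 : ℝ) ≤ q := by
              exact_mod_cast (Nat.prime_of_mem_primeFactors hq).one_le
            have := Real.log_nonneg this
            positivity
          linarith)
    refine h3.trans ?_
    unfold om
    rw [pow_succ]
    calc C0 ^ m.primeFactors.card * C0 ≤ (K0 : ℝ) ^ m.primeFactors.card * K0 := by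
          gcongr
      _ = _ := by ring
  have hlog : 0 ≤ Real.log B := Real.log_nonneg hB
  have hcard : (F.card : ℝ) ≤ ∑ t : Fin 3, ∑ m ∈ Icc 1 ⌊B⌋₊, ((F.filter (P t m)).card : ℝ) := by
    have h5 := (Finset.card_le_card hsub).trans Finset.card_biUnion_le
    have h6 : F.card ≤ ∑ t : Fin 3, ∑ m ∈ Icc 1 ⌊B⌋₊, (F.filter (P t m)).card :=
      h5.trans (Finset.sum_le_sum fun t _ => Finset.card_biUnion_le)
    exact_mod_cast h6
  calc (F.card : ℝ) ≤ ∑ t : Fin 3, ∑ m ∈ Icc 1 ⌊B⌋₊, ((F.filter (P t m)).card : ℝ) := hcard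
    _ ≤ ∑ t : Fin 3, ∑ m ∈ Icc 1 ⌊B⌋₊, K0 * (K0 : ℝ) ^ om m :=
        Finset.sum_le_sum fun t _ => Finset.sum_le_sum fun m hm => hcell t m hm
    _ = 3 * K0 * ∑ m ∈ Icc 1 ⌊B⌋₊, (K0 : ℝ) ^ om m := by
        rw [Finset.sum_const, Finset.card_univ, Fintype.card_fin, ← Finset.mul_sum]
        simp
        ring
    _ ≤ 3 * K0 * (B * (1 + Real.log B) ^ K0) := by
        gcongr
        exact (h_RAD K0 B hK1 hB).1
    _ = 3 * K0 * B * (1 + Real.log B) ^ (K0 : ℝ) := by
        rw [Real.rpow_natCast]; ring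
    _ ≤ 3 * K0 * B * (1 + Real.log B) ^ (3 * K0 : ℝ) := by
        gcongr
        · linarith
        · linarith

end Pool.Agent.H98.ABCR
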