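import Pool.Agent.H98.ABCR.Stmts

/-! # ABCR, module GAP: the gap principle -/

set_option autoImplicit false

namespace Pool.Agent.H98.ABCR

open Finset Polynomial

private theorem gap_eq {x1 y1 x2 y2 : ℤ} (h1 : IsSol x1 y1) (h2 : IsSol x2 y2)
    (h : x2 * y1 = x1 * y2) : (x1, y1) = (x2, y2) := by
  have d1 : y1 ∣ y2 := by
    have : y1 ∣ x1 * y2 := ⟨x2, by rw [← h]; ring⟩
    exact h1.cop.symm.dvd_of_dvd_mul_left this
  have d2 : y2 ∣ y1 := by
    have : y2 ∣ x2 * y1 := ⟨x1, by rw [h]; ring⟩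
    exact h2.cop.symm.dvd_of_dvd_mul_left this
  have e : y1 = y2 := Int.dvd_antisymm h1.y0.le h2.y0.le d1 d2
  subst e
  have : x2 = x1 := mul_right_cancel₀ h1.y0.ne' h
  rw [this]

/-- the polynomial `T - 1` -/
private def gapP : ℕ → ℕ → ℤ := fun j _ => if j = 0 then -1 else 1

theorem gap_thm (h_TSI : S_TSI) : S_GAP := by
  intro δ hδ hδ1
  refine ⟨⌈12 / δ⌉₊, 40 / δ, ?_, ?_⟩
  · rw [le_div_iff₀ hδ]; linarith
  intro k S θ θi x1 y1 x2 y2 N D hk hodd hk0 hL hW hC h12 hne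
  have hk0' : 12 / δ ≤ k := Nat.ceil_le.1 hk0
  have hkpos : (0 : ℝ) < k := by exact_mod_cast hk.pos
  by_contra hcon
  push Not at hcon
  have hND : N ≠ D := by
    intro e
    apply hne
    apply gap_eq hL.s1 hL.s2
    have := hL.rel
    rw [e] at this
    exact mul_left_cancel₀ (pow_ne_zero _ hL.D0) this
  have hp : CoeffLe 1 0 gapP (Real.exp 0) := by
    intro j _ l _
    unfold gapP
    split_ifs <;> simp
  have hR : (X - 1 : ℤ[X]) ^ 1 ∣ Rpoly k 1 0 gapP := by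
    have e : Rpoly k 1 0 gapP = X - 1 := by
      simp [Rpoly, gapP, Finset.sum_range_succ]
      ring
    rw [e, pow_one]
  have hF : Fval k 1 0 0 gapP x1 y1 N D ≠ 0 := by
    have e : Fval k 1 0 0 gapP x1 y1 N D = N - D := by
      simp [Fval, gapP, Finset.sum_range_succ]
      ring
    rw [e]
    exact sub_ne_zero.2 hND
  have key := h_TSI k 1 0 1 0 gapP S θ θi 0 x1 y1 x2 y2 N D hk hodd hL (by norm_num) hp hR hF
  have e1 : min (((1 - 0 : ℕ) : ℝ) * lh x1 y1) (lh x2 y2) = lh x1 y1 := by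
    simp [h12]
  rw [e1] at key
  simp only [Nat.cast_one, Nat.cast_zero, mul_zero, zero_add, zero_mul, one_mul, add_zero] at key
  have hh1 : 0 < lh x1 y1 := lt_of_lt_of_le (by positivity) hC
  have hlog256 : Real.log 256 ≤ 6 := by
    rw [show (256 : ℝ) = 2 ^ 8 by norm_num, Real.log_pow]
    have := Real.log_two_lt_d9
    norm_num
    linarith
  have hlogk : Real.log k ≤ k := (Real.log_le_sub_one_of_pos hkpos).trans (by linarith)
  have hk1 : (1 : ℝ) ≤ k := by exact_mod_cast hk.one_le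
  have h3 : δ * lh x1 y1 ≤ (∑ q ∈ S, θ q + θi) * lh x1 y1 :=
    mul_le_mul_of_nonneg_right hW hh1.le
  have h4 : (lh x1 y1 + lh x2 y2) / k ≤ δ / 4 * lh x1 y1 := by
    rw [div_le_iff₀ hkpos]
    have : 12 ≤ δ * k := by
      rw [div_le_iff₀ hδ] at hk0'
      linarith
    nlinarith
  have h5 : (19 : ℝ) * k ≤ δ / 2 * lh x1 y1 := by
    have : 40 / δ * k * δ = 40 * k := by field_simp
    nlinarith
  have h6 : (1 + 1 + 1) * Real.log 256 + Real.log k ≤ 19 * k := by nlinarith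
  nlinarith

end Pool.Agent.H98.ABCR
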